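import Pool.Agent.N386.HF.Main

/-!
Shortest parallel-flip paths cannot always keep the common edges: a set of 19 points in general
position with two triangulations at parallel-flip distance at most 10, such that every path
keeping all common edges has length at least 11.
-/

open Pool.Agent.N386.HF

namespace Pool.Agent.N386.HF

lemma det_of_collinear {x y z : Plane} (h : Collinear ℝ {x, y, z}) : det x y z = 0 := by
  rw [collinear_iff_of_mem (p₀ := x) (by simp)] at h
  obtain ⟨v, hv⟩ := h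
  obtain ⟨r, hr⟩ := hv y (by simp)
  obtain ⟨s, hs⟩ := hv z (by simp)
  rw [hr, hs]
  simp only [det, vadd_eq_add, Prod.fst_add, Prod.snd_add, Prod.smul_fst, Prod.smul_snd,
    smul_eq_mul]
  ring

lemma general_position : ∀ x ∈ S, ∀ y ∈ S, ∀ z ∈ S, x ≠ y → y ≠ z → x ≠ z →
    ¬ Collinear ℝ {x, y, z} := by
  intro x hx y hy z hz h1 h2 h3 hcol
  obtain ⟨i, hi, rfl⟩ := mem_S.1 hx
  obtain ⟨j, hj, rfl⟩ := mem_S.1 hy
  obtain ⟨k, hk, rfl⟩ := mem_S.1 hz
  refine det_ne hi hj hk ?_ ?_ ?_ (det_of_collinear hcol)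
  · rintro rfl; exact h1 rfl
  · rintro rfl; exact h2 rfl
  · rintro rfl; exact h3 rfl

end Pool.Agent.N386.HF

/-- The happy edge property fails for parallel flips. -/
theorem Pool.Agent.Results.MP_797cb5_co.HappyEdgeFails.result :
    ∃ (S : Finset Plane) (T T' : Set (Sym2 Plane)),
      S.card = 19 ∧
      (∀ x ∈ S, ∀ y ∈ S, ∀ z ∈ S, x ≠ y → y ≠ z → x ≠ z → ¬ Collinear ℝ {x, y, z}) ∧
      IsTriangulation S T ∧ IsTriangulation S T' ∧
      (∃ P, IsPath S T T' 10 P) ∧
      (∀ l P, IsPath S T T' l P → (∀ i, 0 < i → i < l → T ∩ T' ⊆ P i) → 11 ≤ l) ∧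
      (∃ l P, IsShortestPath S T T' l P) ∧
      (∀ l P, IsShortestPath S T T' l P → ∃ i, 0 < i ∧ i < l ∧ ¬ T ∩ T' ⊆ P i) := by
  refine ⟨S, TS (pm 0), TS (pm 10), card_S, general_position,
    tri_of_triB (pm_tri (by norm_num)), tri_of_triB (pm_tri (by norm_num)), ⟨_, path_ten⟩,
    fun l P h1 h2 => happy_long h1 h2, ?_, ?_⟩
  · classical
    have hex : ∃ l, ∃ P, IsPath S (TS (pm 0)) (TS (pm 10)) l P := ⟨10, _, path_ten⟩
    obtain ⟨P, hP⟩ := Nat.find_spec hex
    exact ⟨Nat.find hex, P, hP, fun l' P' h' => Nat.find_min' hex ⟨P', h'⟩⟩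
  · intro l P hP
    by_contra hcon
    push Not at hcon
    have h1 := happy_long hP.1 hcon
    have h2 := hP.2 10 _ path_ten
    omega
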